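import Pool.Agent.MP_3ee8cb_gt.CZ.Spec
import Pool.Agent.MP_3ee8cb_gt.CZP.Peano
import Pool.Agent.MP_3ee8cb_gt.D3NB.Pt
import Pool.Agent.MP_3ee8cb_gt.D3NP.XSGN

/-! Facts along the ray of a point of differentiability of a Lipschitz front. -/

namespace Pool.Agent.MP_3ee8cb_gt.CZS

open Set Filter Topology MeasureTheory D3 CZ
open D3GB (trip bv)
open scoped RealInnerProductSpace

noncomputable section

/-! ### Binary quadratic forms -/

theorem q_ker {a b c : ℝ} (h : a * c - b * b = 0) :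
    ∃ x y : ℝ, (x ≠ 0 ∨ y ≠ 0) ∧ a * x ^ 2 + 2 * b * x * y + c * y ^ 2 = 0 := by
  by_cases e : a = 0
  · exact ⟨1, 0, Or.inl one_ne_zero, by simp [e]⟩
  · exact ⟨-b, a, Or.inr e, by linear_combination a * h⟩

theorem q_ind {a b c x y x' y' : ℝ} (h1 : 0 < a * x ^ 2 + 2 * b * x * y + c * y ^ 2)
    (h2 : a * x' ^ 2 + 2 * b * x' * y' + c * y' ^ 2 < 0) : a * c - b * b < 0 := by
  by_contra hn
  have h := not_lt.1 hn
  have k1 : 0 ≤ (a * c - b * b) * (x * y' - x' * y) ^ 2 := by positivity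
  nlinarith [mul_pos h1 (neg_pos.2 h2), sq_nonneg (a * x * x' + b * (x * y' + x' * y) + c * y * y')]

theorem q_def {a b c x y : ℝ} (h : 0 < a * c - b * b) (hxy : x ≠ 0 ∨ y ≠ 0) :
    0 < a * (a * x ^ 2 + 2 * b * x * y + c * y ^ 2) := by
  have e : a * (a * x ^ 2 + 2 * b * x * y + c * y ^ 2) =
      (a * x + b * y) ^ 2 + (a * c - b * b) * y ^ 2 := by ring
  rw [e]
  by_cases hy : y = 0
  · have hx : x ≠ 0 := hxy.resolve_right (not_not.2 hy)
    have ha : a ≠ 0 := by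
      rintro rfl
      nlinarith [mul_self_nonneg b]
    have : 0 < (a * x) ^ 2 := by positivity
    simpa [hy] using this
  · positivity

theorem q_two {a b c : ℝ} (h : a * c - b * b < 0) : ∃ x y x' y' : ℝ,
    0 < a * x ^ 2 + 2 * b * x * y + c * y ^ 2 ∧ a * x' ^ 2 + 2 * b * x' * y' + c * y' ^ 2 < 0 := by
  rcases lt_trichotomy a 0 with e | e | e
  · exact ⟨-b, a, 1, 0, by nlinarith [mul_pos (neg_pos.2 e) (neg_pos.2 h)], by simpa using e⟩
  · have hb : b ≠ 0 := by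
      rintro rfl
      simp [e] at h
    refine ⟨(1 - c) / (2 * b), 1, (-1 - c) / (2 * b), 1, ?_, ?_⟩
    · rw [e, mul_div_cancel₀ _ (mul_ne_zero two_ne_zero hb)]
      norm_num
    · rw [e, mul_div_cancel₀ _ (mul_ne_zero two_ne_zero hb)]
      norm_num
  · exact ⟨1, 0, -b, a, by simpa using e, by nlinarith [mul_pos e (neg_pos.2 h)]⟩

/-! ### Jacobi fields -/

variable {m : MF} {P : V → V × V} {Om : Set V} {u : V}

theorem jj_der (ho : m.OK) (hj : m.Jac) (z ξ : V × V) (t : ℝ) :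
    HasDerivAt (fun s => ⟪m.J' z ξ s, m.J z ξ s⟫) (‖m.J' z ξ t‖ ^ 2 -
      ⟪m.K (m.Z t z).1 (m.J z ξ t) (m.Z t z).2 (m.Z t z).2, m.J z ξ t⟫) t := by
  refine ((hj.d2 z ξ t).inner ℝ (hj.d1 z ξ t)).congr_deriv ?_
  have := ho.skew (m.Z t z).1 (m.R (m.Z t z).1 (m.Z t z).2) (m.J' z ξ t) (m.J z ξ t)
  simp only [inner_sub_left, inner_sub_right, inner_neg_left, real_inner_self_eq_norm_sq, MF.w]
  linarith

theorem jj_mono (ho : m.OK) (hj : m.Jac) (hu : m.Up 0) (z ξ : V × V) :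
    Monotone fun s => ⟪m.J' z ξ s, m.J z ξ s⟫ :=
  monotone_of_hasDerivAt_nonneg (jj_der ho hj z ξ) fun t => by
    have := hu (m.Z t z).1 (m.J z ξ t) (m.Z t z).2
    have := sq_nonneg ‖m.J' z ξ t‖
    simp only [Pi.zero_apply]
    linarith

theorem jj_strict (ho : m.OK) (hj : m.Jac) (hu : m.Up 0) {z ξ : V × V}
    (h : ∀ t, m.J' z ξ t ≠ 0) : StrictMono fun s => ⟪m.J' z ξ s, m.J z ξ s⟫ :=
  strictMono_of_hasDerivAt_pos (jj_der ho hj z ξ) fun t => by
    have := hu (m.Z t z).1 (m.J z ξ t) (m.Z t z).2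
    have := pow_pos (norm_pos_iff.2 (h t)) 2
    linarith

/-! ### The moving front -/

/-- The last coordinate is the time of the flow. -/
structure Fl (m : MF) (P : V → V × V) (Om : Set V) : Prop where
  op : IsOpen Om
  cyl : ∀ u ∈ Om, ∀ s : ℝ, u + s • bv 2 ∈ Om
  unit : ∀ u ∈ Om, ‖(P u).2‖ = 1
  flow : ∀ u ∈ Om, ∀ s : ℝ, P (u + s • bv 2) = m.Z s (P u)

theorem fl_of (ho : m.OK) (hj : m.Jac) {σ : V → V × V} {K : V → V}
    (hn : ∀ q, q ≠ 0 → ‖(σ q).2‖ = ‖q‖) (op : IsOpen Om)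
    (cyl : ∀ u ∈ Om, ∀ s : ℝ, u + s • bv 2 ∈ Om)
    (tr : ∀ u (s : ℝ), K (u + s • bv 2) = Real.exp s • K u) (ne : ∀ u ∈ Om, K u ≠ 0) :
    Fl m (PK m σ K) Om := by
  refine ⟨op, cyl, fun u hu => ?_, fun u hu s => ?_⟩
  · have n0 := norm_ne_zero_iff.2 (ne u hu)
    rw [PK, D3NB.Ph, hj.norm, hn _ (smul_ne_zero (inv_ne_zero n0) (ne u hu)), norm_smul, norm_inv,
      norm_norm, inv_mul_cancel₀ n0]
  · have n0 := norm_ne_zero_iff.2 (ne u hu)
    have e0 := Real.exp_pos s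
    rw [PK, PK, tr, D3NB.Ph, D3NB.Ph, norm_smul, Real.norm_of_nonneg e0.le, Real.log_mul e0.ne' n0,
      Real.log_exp, ho.add, smul_smul, mul_inv, mul_right_comm, inv_mul_cancel₀ e0.ne', one_mul]

theorem fl_atl (ho : m.OK) (hj : m.Jac) {σ : V → V × V} {a : ℝ} {K : V → V} {Om0 : Set V}
    (hg : Geo m σ a K Om) (ha : Atl K Om Om0) : Fl m (PK m σ K) Om :=
  fl_of ho hj hg.norm ha.op ha.cyl ha.tr fun u hu =>
    norm_ne_zero_iff.1 (by rw [ha.nrm u hu]; exact (Real.exp_pos _).ne')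

theorem Fl.fd (hf : Fl m P Om) (ho : m.OK) (hu : u ∈ Om) (hd : DifferentiableAt ℝ P u) (s : ℝ) :
    HasFDerivAt P ((fderiv ℝ (m.Z s) (P u)).comp (fderiv ℝ P u)) (u + s • bv 2) :=
  D3NB.flow_fd ho hd.hasFDerivAt (mem_of_superset (hf.op.mem_nhds hu) fun x hx => hf.flow x hx s)

theorem Fl.dif (hf : Fl m P Om) (ho : m.OK) (hu : u ∈ Om) (hd : DifferentiableAt ℝ P u) (s : ℝ) :
    DifferentiableAt ℝ P (u + s • bv 2) := (hf.fd ho hu hd s).differentiableAt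

theorem Fl.Ah_eq (hf : Fl m P Om) (ho : m.OK) (hu : u ∈ Om) (hd : DifferentiableAt ℝ P u) (s : ℝ)
    (e : V) : Ah m P (u + s • bv 2) e = m.J (P u) (fderiv ℝ P u e) s := by
  rw [Ah, (hf.fd ho hu hd s).fderiv, hf.flow u hu]
  rfl

theorem Fl.Av_eq (hf : Fl m P Om) (ho : m.OK) (hu : u ∈ Om) (hd : DifferentiableAt ℝ P u) (s : ℝ)
    (e : V) : Av m P (u + s • bv 2) e = m.J' (P u) (fderiv ℝ P u e) s := by
  rw [Av, (hf.fd ho hu hd s).fderiv, hf.flow u hu]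
  rfl

theorem Fl.perp (hf : Fl m P Om) (ho : m.OK) (hu : u ∈ Om) (hd : DifferentiableAt ℝ P u) (e : V) :
    ⟪(P u).2, Av m P u e⟫ = 0 := by
  rw [real_inner_comm]
  exact D3NB.ver_perp ho hd.hasFDerivAt (mem_of_superset (hf.op.mem_nhds hu) hf.unit) e

theorem Fl.time (hf : Fl m P Om) (ho : m.OK) (hu : u ∈ Om) (hd : DifferentiableAt ℝ P u) :
    Ah m P u (bv 2) = (P u).2 ∧ Av m P u (bv 2) = 0 := by
  have e := D3NB.flow_vf ho hd.hasFDerivAt (hf.flow u hu)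
  simp only [Ah, Av, ContinuousLinearMap.comp_apply, e, D3NB.ver_vf, and_true]
  exact ho.SR _ _

/-- The form decreases along the ray. -/
theorem Fl.nf_anti (hf : Fl m P Om) (ho : m.OK) (hj : m.Jac) (h0 : m.Up 0) (hu : u ∈ Om)
    (hd : DifferentiableAt ℝ P u) (e : V) : Antitone fun s : ℝ => nf m P (u + s • bv 2) e := by
  intro s t hst
  have := jj_mono ho hj h0 (P u) (fderiv ℝ P u e) hst
  simp only [nf, hf.Ah_eq ho hu hd, hf.Av_eq ho hu hd] at this ⊢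
  linarith

theorem Fl.nf_le (hf : Fl m P Om) (ho : m.OK) (hj : m.Jac) (h0 : m.Up 0) (hu : u ∈ Om)
    (hd : DifferentiableAt ℝ P u) (e : V) {t : ℝ} (ht : 0 ≤ t) :
    nf m P (u + t • bv 2) e ≤ nf m P u e := by
  simpa using hf.nf_anti ho hj h0 hu hd e ht

/-! ### The contact property -/

/-- The contact property for finite differences near `x`. -/
def Con0 (m : MF) (Q : V → V × V) (x : V) : Prop := ∃ C : ℝ, ∀ᶠ p : V × V in 𝓝 (x, x),
  |⟪(Q p.1).2, m.hor (Q p.1) (Q p.2 - Q p.1)⟫| ≤ C * ‖p.2 - p.1‖ ^ 2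

theorem leg0 {D : V →L[ℝ] V × V} (hd : HasFDerivAt P D u) (hc : Con0 m P u) (e : V) :
    ⟪(P u).2, m.hor (P u) (D e)⟫ = 0 := by
  obtain ⟨C, hC⟩ := hc
  have t : Tendsto (fun v : V => (u, v)) (𝓝 u) (𝓝 (u, u)) :=
    (continuous_const.prodMk continuous_id).tendsto u
  set l : V × V →L[ℝ] ℝ := (innerSL ℝ (P u).2).comp (m.hor (P u)) with hl
  have d1 : HasFDerivAt (fun v => l (P v - P u)) (l.comp D) u :=
    l.hasFDerivAt.comp u (hd.sub_const _)
  have d2 : HasFDerivAt (fun v => l (P v - P u)) (0 : V →L[ℝ] ℝ) u := by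
    refine HasFDerivAt.of_isLittleO ?_
    have b : (fun v => l (P v - P u)) =O[𝓝 u] fun v => ‖v - u‖ ^ 2 :=
      Asymptotics.IsBigO.of_bound C ((t.eventually hC).mono fun v hv => by
        rw [Real.norm_of_nonneg (sq_nonneg ‖v - u‖)]
        exact hv)
    simpa using b.trans_isLittleO (Asymptotics.isLittleO_pow_sub_sub u one_lt_two)
  exact congrArg (fun L : V →L[ℝ] ℝ => L e) (d1.unique d2)

theorem sym0 (ho : m.OK) {D : V →L[ℝ] V × V} (hd : HasFDerivAt P D u) (hc : Con0 m P u) {L : ℝ}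
    (hl : ∀ᶠ p : V × V in 𝓝 (u, u), ‖P p.2 - P p.1‖ ≤ L * ‖p.2 - p.1‖) (e e' : V) :
    ⟪m.ver (P u) (D e), m.hor (P u) (D e')⟫ = ⟪m.ver (P u) (D e'), m.hor (P u) (D e)⟫ := by
  obtain ⟨C, hC⟩ := hc
  have dS : HasFDerivAt m.S (fderiv ℝ m.S (P u).1) (P u).1 :=
    (ho.cS.differentiable two_ne_zero _).hasFDerivAt
  have d1 := hd.fst
  have d2 := ((innerSL ℝ (E := V)).hasFDerivAt.comp u hd.snd).clm_comp (dS.comp u d1)
  have key := CZP.peano (ContinuousLinearMap.id ℝ (V →L[ℝ] ℝ)) (k := fun _ : V => 0) (C := C)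
    (L := L) d2 d1 (by
      filter_upwards [hC, hl] with p h1 h2
      refine ⟨?_, (norm_fst_le (P p.2 - P p.1)).trans h2⟩
      rw [sub_self, zero_sub, abs_neg]
      exact h1) e e'
  have tor := congrArg (fun x => ⟪(P u).2, x⟫) (ho.tors (P u).1 (D e).1 (D e').1)
  have s1 := ho.skew (P u).1 (D e).1 (P u).2 (m.S (P u).1 (D e').1)
  have s2 := ho.skew (P u).1 (D e').1 (P u).2 (m.S (P u).1 (D e).1)
  have k : ⟪(P u).2, fderiv ℝ m.S (P u).1 (D e).1 (D e').1⟫ + ⟪(D e).2, m.S (P u).1 (D e').1⟫ =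
    ⟪(P u).2, fderiv ℝ m.S (P u).1 (D e').1 (D e).1⟫ + ⟪(D e').2, m.S (P u).1 (D e).1⟫ := key
  simp only [inner_add_right, inner_sub_right, inner_zero_right] at tor
  simp only [MF.ver, MF.hor, add_apply, ContinuousLinearMap.comp_apply,
    ContinuousLinearMap.flip_apply, ContinuousLinearMap.coe_fst', ContinuousLinearMap.coe_snd',
    inner_add_left]
  linarith

/-- The projection to a time slice. -/
def pr : V →L[ℝ] V :=
  ContinuousLinearMap.id ℝ V - (EuclideanSpace.proj (2 : Fin 3)).smulRight (bv 2)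

theorem pr_two (e : V) : pr e 2 = 0 := by simp [pr, bv]

theorem pr_eq {e : V} (h : e 2 = 0) : pr e = e := by simp [pr, h]

theorem pr_add (e : V) : pr e + e 2 • bv 2 = e := by simp [pr]

theorem pl {e : V} (h : e 2 = 0) : e 0 • bv 0 + e 1 • bv 1 = e := by
  ext i
  fin_cases i <;> simp [bv, h]

theorem pl_ne {e : V} (h : e 2 = 0) (h0 : e ≠ 0) : e 0 ≠ 0 ∨ e 1 ≠ 0 := by
  by_contra hn
  rw [not_or, not_not, not_not] at hn
  exact h0 (by rw [← pl h, hn.1, hn.2, zero_smul, zero_smul, add_zero])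

theorem pl_two (x y : ℝ) : (x • bv 0 + y • bv 1 : V) 2 = 0 := by simp [bv]

/-- The contact property on the time slice of `u`. -/
def Con (m : MF) (P : V → V × V) (u : V) : Prop := ∃ C : ℝ, ∀ᶠ p : V × V in 𝓝 (u, u),
  p.1 2 = u 2 → p.2 2 = u 2 →
    |⟪(P p.1).2, m.hor (P p.1) (P p.2 - P p.1)⟫| ≤ C * ‖p.2 - p.1‖ ^ 2

theorem pr_tend (u : V) :
    Tendsto (fun p : V × V => (u + pr p.1, u + pr p.2)) (𝓝 (0, 0)) (𝓝 (u, u)) :=
  Continuous.tendsto' (by fun_prop) _ _ (by simp)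

theorem pr_le (u a b : V) : ‖u + pr a - (u + pr b)‖ ≤ ‖pr‖ * ‖a - b‖ := by
  rw [add_sub_add_left_eq_sub, ← map_sub]
  exact pr.le_opNorm _

theorem Con.con0 (hc : Con m P u) : Con0 m (fun v => P (u + pr v)) 0 := by
  obtain ⟨C, hC⟩ := hc
  refine ⟨|C| * ‖pr‖ ^ 2, ((pr_tend u).eventually hC).mono fun p hp => ?_⟩
  refine (hp (by simp [pr_two]) (by simp [pr_two])).trans
    ((mul_le_mul_of_nonneg_right (le_abs_self C) (sq_nonneg _)).trans ?_)
  rw [mul_assoc, ← mul_pow]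
  gcongr
  exact pr_le u _ _

theorem pr_fd (hd : DifferentiableAt ℝ P u) :
    HasFDerivAt (fun v => P (u + pr v)) ((fderiv ℝ P u).comp pr) 0 :=
  HasFDerivAt.comp (g := P) (f := fun v => u + pr v) 0
    (by rw [map_zero, add_zero]; exact hd.hasFDerivAt) (pr.hasFDerivAt.const_add u)

theorem Fl.leg (hf : Fl m P Om) (ho : m.OK) (hu : u ∈ Om) (hd : DifferentiableAt ℝ P u)
    (hc : Con m P u) (e : V) : ⟪(P u).2, Ah m P u e⟫ = e 2 := by
  have h := leg0 (pr_fd hd) hc.con0 e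
  simp only [map_zero, add_zero] at h
  conv_lhs => rw [← pr_add e]
  rw [map_add, map_smul, inner_add_right, real_inner_smul_right, (hf.time ho hu hd).1,
    real_inner_self_eq_norm_sq, hf.unit u hu, show ⟪(P u).2, Ah m P u (pr e)⟫ = 0 from h]
  simp

theorem sym (ho : m.OK) (hd : DifferentiableAt ℝ P u) (hc : Con m P u)
    (hl : ∃ L, ∃ t ∈ 𝓝 u, LipschitzOnWith L P t) {e e' : V} (he : e 2 = 0) (he' : e' 2 = 0) :
    ⟪Av m P u e, Ah m P u e'⟫ = ⟪Av m P u e', Ah m P u e⟫ := by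
  obtain ⟨L, U, hU, hL⟩ := hl
  have h := sym0 ho (pr_fd hd) hc.con0 (L := L * ‖pr‖)
    (((pr_tend u).eventually (prod_mem_nhds hU hU)).mono fun p hp => by
      refine (hL.norm_sub_le hp.2 hp.1).trans ?_
      rw [mul_assoc]
      gcongr
      exact pr_le u _ _) e e'
  simp only [map_zero, add_zero, ContinuousLinearMap.comp_apply, pr_eq he, pr_eq he'] at h
  exact h

/-- The entries of the form `⟪A' ·, A ·⟫`. -/
def hh (m : MF) (P : V → V × V) (u : V) (i j : Fin 3) : ℝ := ⟪Av m P u (bv i), Ah m P u (bv j)⟫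

/-- A point with a symmetric form. -/
structure Sp (m : MF) (P : V → V × V) (u : V) : Prop where
  unit : ‖(P u).2‖ = 1
  perp : ∀ e, ⟪(P u).2, Av m P u e⟫ = 0
  sym : hh m P u 0 1 = hh m P u 1 0

theorem Sp.det (h : Sp m P u) :
    dl m P u * yy m P u = hh m P u 0 0 * hh m P u 1 1 - hh m P u 0 1 * hh m P u 0 1 := by
  rw [dl, yy, D3NP.XSGN.gram _ _ _ _ _ (by rw [real_inner_self_eq_norm_sq, h.unit, one_pow])
    (h.perp _) (h.perp _)]
  have := h.sym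
  simp only [hh, real_inner_comm (Av m P u _)] at this ⊢
  rw [this]

theorem Sp.form (h : Sp m P u) (x y : ℝ) : nf m P u (x • bv 0 + y • bv 1) =
    -(hh m P u 0 0 * x ^ 2 + 2 * hh m P u 0 1 * x * y + hh m P u 1 1 * y ^ 2) / 2 := by
  have := h.sym
  simp only [nf, hh, map_add, map_smul, inner_add_left, inner_add_right, real_inner_smul_left,
    real_inner_smul_right] at this ⊢
  rw [← this]
  ring

/-- The type of a point is read from the sign of `det A`. -/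
theorem Sp.sg (h : Sp m P u) (hy : 0 < yy m P u) :
    (0 < dl m P u → (∀ x y : ℝ, x ≠ 0 ∨ y ≠ 0 → 0 < nf m P u (x • bv 0 + y • bv 1)) ∨
      ∀ x y : ℝ, x ≠ 0 ∨ y ≠ 0 → nf m P u (x • bv 0 + y • bv 1) < 0) ∧
    (dl m P u < 0 → ∃ x y x' y' : ℝ, 0 < nf m P u (x • bv 0 + y • bv 1) ∧
      nf m P u (x' • bv 0 + y' • bv 1) < 0) := by
  refine ⟨fun hd => ?_, fun hd => ?_⟩
  · have h1 := (mul_pos hd hy).trans_eq h.det
    rcases le_total (hh m P u 0 0) 0 with e | e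
    · refine Or.inl fun x y hxy => ?_
      have := q_def h1 hxy
      rw [h.form]
      by_contra hn
      nlinarith
    · refine Or.inr fun x y hxy => ?_
      have := q_def h1 hxy
      rw [h.form]
      by_contra hn
      nlinarith
  · obtain ⟨x, y, x', y', h1, h2⟩ := q_two (h.det.symm.trans_lt (mul_neg_of_neg_of_pos hd hy))
    exact ⟨x', y', x, y, by rw [h.form]; linarith, by rw [h.form]; linarith⟩

theorem Fl.sp (hf : Fl m P Om) (ho : m.OK) (hu : u ∈ Om) (hd : DifferentiableAt ℝ P u)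
    (hc : Con m P u) (hl : LocallyLipschitzOn Om P) : Sp m P u := by
  obtain ⟨L, t, ht, hL⟩ := hl hu
  rw [hf.op.nhdsWithin_eq hu] at ht
  exact ⟨hf.unit u hu, hf.perp ho hu hd, sym ho hd hc ⟨L, t, ht, hL⟩ (by simp [bv]) (by simp [bv])⟩

theorem Av_ne (hy : yy m P u ≠ 0) {x y : ℝ} (h : x ≠ 0 ∨ y ≠ 0) :
    Av m P u (x • bv 0 + y • bv 1) ≠ 0 := fun e => by
  have c := fun i => congrArg (fun v : V => v i) e
  have c0 := c 0
  have c1 := c 1
  have c2 := c 2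
  simp only [map_add, map_smul, PiLp.add_apply, PiLp.smul_apply, smul_eq_mul,
    PiLp.zero_apply] at c0 c1 c2
  rcases h with h | h
  · refine mul_ne_zero h hy ?_
    simp only [yy, trip]
    linear_combination ((P u).2 2 * Av m P u (bv 1) 1 - (P u).2 1 * Av m P u (bv 1) 2) * c0 +
      ((P u).2 0 * Av m P u (bv 1) 2 - (P u).2 2 * Av m P u (bv 1) 0) * c1 +
      ((P u).2 1 * Av m P u (bv 1) 0 - (P u).2 0 * Av m P u (bv 1) 1) * c2
  · refine mul_ne_zero h hy ?_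
    simp only [yy, trip]
    linear_combination ((P u).2 1 * Av m P u (bv 0) 2 - (P u).2 2 * Av m P u (bv 0) 1) * c0 +
      ((P u).2 2 * Av m P u (bv 0) 0 - (P u).2 0 * Av m P u (bv 0) 2) * c1 +
      ((P u).2 0 * Av m P u (bv 0) 1 - (P u).2 1 * Av m P u (bv 0) 0) * c2

theorem Fl.nf_strict (hf : Fl m P Om) (ho : m.OK) (hj : m.Jac) (h0 : m.Up 0) (hu : u ∈ Om)
    (hd : DifferentiableAt ℝ P u) (hy : ∀ s : ℝ, yy m P (u + s • bv 2) ≠ 0) {x y : ℝ}
    (h : x ≠ 0 ∨ y ≠ 0) : StrictAnti fun s : ℝ => nf m P (u + s • bv 2) (x • bv 0 + y • bv 1) := by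
  intro s t hst
  have := jj_strict ho hj h0 (z := P u) (ξ := fderiv ℝ P u (x • bv 0 + y • bv 1))
    (fun r => by rw [← hf.Av_eq ho hu hd]; exact Av_ne (hy r) h) hst
  simp only [nf, hf.Ah_eq ho hu hd, hf.Av_eq ho hu hd] at this ⊢
  linarith

/-- There are finitely many focal times on a ray. -/
theorem Fl.zer (hf : Fl m P Om) (ho : m.OK) (hj : m.Jac) (h0 : m.Up 0) (hu : u ∈ Om)
    (hd : DifferentiableAt ℝ P u) (hs : ∀ s : ℝ, Sp m P (u + s • bv 2))
    (hy : ∀ s : ℝ, yy m P (u + s • bv 2) ≠ 0) :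
    {s : ℝ | dl m P (u + s • bv 2) = 0}.Finite := by
  set Z := {s : ℝ | dl m P (u + s • bv 2) = 0} with hZ
  have k : ∀ s ∈ Z, hh m P (u + s • bv 2) 0 0 * hh m P (u + s • bv 2) 1 1 -
      hh m P (u + s • bv 2) 0 1 * hh m P (u + s • bv 2) 0 1 = 0 := fun s h => by
    rw [← (hs s).det, show dl m P (u + s • bv 2) = 0 from h, zero_mul]
  have three : ∀ r ∈ Z, ∀ s ∈ Z, ∀ t ∈ Z, r < s → s < t → False := by
    intro r hr s h2 t ht h3 h4
    obtain ⟨x, y, n1, e1⟩ := q_ker (k r hr)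
    obtain ⟨x', y', n2, e2⟩ := q_ker (k t ht)
    have a1 := hf.nf_strict ho hj h0 hu hd hy n1 h3
    have a2 := hf.nf_strict ho hj h0 hu hd hy n2 h4
    simp only [(hs _).form, e1, e2] at a1 a2
    exact (q_ind (x := x) (y := y) (x' := x') (y' := y') (by linarith) (by linarith)).ne (k s h2)
  have sub : Z ⊆ {t | IsLeast Z t} ∪ {t | IsGreatest Z t} := fun s h => by
    by_contra hn
    simp only [mem_union, mem_ofPred_eq, not_or, IsLeast, IsGreatest, h, true_and, lowerBounds,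
      upperBounds, not_forall, not_le] at hn
    obtain ⟨⟨r, hr, h1⟩, t, ht, h2⟩ := hn
    exact three r hr s h t ht h1 h2
  exact ((Subsingleton.finite fun _ a _ b => a.unique b).union
    (Subsingleton.finite fun _ a _ b => a.unique b)).subset sub

theorem Fl.yd (hf : Fl m P Om) (ho : m.OK) (hj : m.Jac) (h2 : ContDiff ℝ 2 m.om) (hu : u ∈ Om)
    (hd : DifferentiableAt ℝ P u) (t : ℝ) : HasDerivAt (fun s : ℝ => yy m P (u + s • bv 2))
      (D3NP.dv (fun v => (P v).1) (fun v => D3NB.XX m (P v).1 (P v).2) (u + t • bv 2)) t := by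
  have e : (fun s : ℝ => yy m P (u + s • bv 2)) =
      D3NB.yJ m (P u) (fderiv ℝ P u (bv 0)) (fderiv ℝ P u (bv 1)) := funext fun s => by
    rw [yy, hf.Av_eq ho hu hd, hf.Av_eq ho hu hd, hf.flow u hu]
    rfl
  rw [e]
  exact D3NB.yJ_dv ho hj h2 hd.hasFDerivAt
    (mem_of_superset (hf.op.mem_nhds hu) fun x hx => ⟨hf.unit x hx, hf.flow x hx⟩) t

theorem Fl.jc (hf : Fl m P Om) (ho : m.OK) (hu : u ∈ Om) (hd : DifferentiableAt ℝ P u) :
    (m.S (P u).1).det * D3NP.jc (fun v => (P v).1) u = dl m P u := by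
  have h := D3NB.jc_pt ho (hf.fd ho hu hd 0) (D3NB.flow_vf ho hd.hasFDerivAt (hf.flow u hu))
  have e := fun i => hf.Ah_eq ho hu hd 0 (bv i)
  simp only [zero_smul, add_zero] at h e
  rw [D3NB.dJ, ← e, ← e, ho.zero] at h
  exact h

/-- All the facts at a point of differentiability of a Lipschitz front. -/
theorem pw (ho : m.OK) (hj : m.Jac) (h2 : ContDiff ℝ 2 m.om) (h0 : m.Up 0) {σ : V → V × V}
    {a : ℝ} {K : V → V} (hg : Geo m σ a K Om) (hf : Fl m (PK m σ K) Om) (hu : u ∈ Om)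
    (hd : DifferentiableAt ℝ (PK m σ K) u) : Pw m (PK m σ K) u := by
  have hy := fun s => (hg.pos _ (hf.cyl u hu s) (hf.dif ho hu hd s)).ne'
  have sp := hf.sp ho hu hd (hg.con u hu) hg.lip
  obtain ⟨L, t, ht, hL⟩ := hg.lip hu
  rw [hf.op.nhdsWithin_eq hu] at ht
  refine ⟨hf.dif ho hu hd, fun s e _ => hf.Ah_eq ho hu hd s e, fun s e _ => hf.Av_eq ho hu hd s e,
    D3NB.flow_vf ho hd.hasFDerivAt (hf.flow u hu), hf.leg ho hu hd (hg.con u hu),
    hf.perp ho hu hd, fun e e' he he' => ?_, hf.yd ho hj h2 hu hd, hf.jc ho hu hd,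
    fun e he h => ?_, fun h => ?_, fun h => ?_, hf.zer ho hj h0 hu hd
      (fun s => hf.sp ho (hf.cyl u hu s) (hf.dif ho hu hd s) (hg.con _ (hf.cyl u hu s)) hg.lip) hy⟩
  · exact (sym ho hd (hg.con u hu) ⟨L, t, ht, hL⟩ he he').trans (real_inner_comm _ _)
  · have := hf.nf_strict ho hj h0 hu hd hy (pl_ne he h)
    rwa [pl he] at this
  · refine ((sp.sg (hg.pos u hu hd)).1 h).imp (fun k e he h => ?_) fun k e he h => ?_ <;>
    · have := k _ _ (pl_ne he h)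
      rwa [pl he] at this
  · obtain ⟨x, y, x', y', h1, h3⟩ := (sp.sg (hg.pos u hu hd)).2 h
    exact ⟨_, _, pl_two x y, pl_two x' y', h1, h3⟩

theorem up_zero {c : ℝ} (hc : 0 ≤ c) (h : m.Up c) : m.Up 0 := fun y a b => by
  have := real_inner_mul_inner_self_le a b
  rw [real_inner_self_eq_norm_sq, real_inner_self_eq_norm_sq] at this
  have := mul_nonneg hc (sub_nonneg.2 this)
  have := h y a b
  nlinarith

theorem sPT : SPT := fun _ _ _ _ _ _ _ _ _ _ _ h u hu =>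
  have hf := fl_atl h.ok h.jac h.geo h.atl
  ⟨⟨hf.unit u hu, hf.flow u hu⟩, pw h.ok h.jac h.c2 (up_zero (sq_nonneg _) h.up) h.geo hf hu⟩

end

end Pool.Agent.MP_3ee8cb_gt.CZS
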