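import Pool.Agent.MP_3ee8cb_gt.CZS.Frm
import Pool.Agent.MP_3ee8cb_gt.CZ.Spec

/-! The sandwich for a Lipschitz front in a chart. -/

namespace Pool.Agent.MP_3ee8cb_gt.CZS

open Set Filter Topology D3
open CR (Met UT Riem ng bus)
open LV (Con ChrP Lb2P QP BP)
open D3MO (S2 Ch)
open D3GB (bv)
open D3NP (jc)
open CZ (PK Geo bet nf Ah Av Bs)
open CZK (Km io)
open scoped RealInnerProductSpace

variable {h : Met 3} {C : TB.Chr 3} {Ψ : ℝ → UT h → UT h} {m : MF} {a : ℝ} {b : V × V → V → ℝ}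
  {σ : V → V × V} {κ : V → S2} {Om : Set V}

/-- The plane of the first two coordinates, as a linear map. -/
noncomputable def ioL : ℝ × ℝ →L[ℝ] V :=
  (ContinuousLinearMap.fst ℝ ℝ ℝ).smulRight (bv 0) + (ContinuousLinearMap.snd ℝ ℝ ℝ).smulRight (bv 1)

theorem ioL_apply (e : ℝ × ℝ) : ioL e = io e := rfl

theorem io_two (e : ℝ × ℝ) : io e 2 = 0 := by simp [io, bv]

theorem io_inj {e : ℝ × ℝ} (he : io e = 0) : e = 0 := by
  have h0 := congrArg (fun v : V => v 0) he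
  have h1 := congrArg (fun v : V => v 1) he
  simp [io, bv] at h0 h1
  exact Prod.ext h0 h1

theorem nrm1 (p : S2) : ‖p.1‖ = 1 := mem_sphere_zero_iff_norm.1 p.2

theorem ne0 (p : S2) : p.1 ≠ 0 := norm_ne_zero_iff.1 (by rw [nrm1]; exact one_ne_zero)

theorem ph_exp (m : MF) (σ : V → V × V) (p : S2) (t : ℝ) :
    D3NB.Ph m σ (Real.exp t • p.1) = m.Z t (σ p.1) := by
  have : ‖Real.exp t • p.1‖ = Real.exp t := by
    rw [norm_smul, nrm1, mul_one, Real.norm_of_nonneg (Real.exp_pos t).le]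
  rw [D3NB.Ph, this, Real.log_exp, smul_smul, inv_mul_cancel₀ (Real.exp_pos t).ne', one_smul]

theorem pk_eq (m : MF) (σ : V → V × V) (κ : V → S2) (v : V) :
    PK m σ (Km κ) v = m.Z (v 2) (σ (κ v).1) := ph_exp m σ (κ v) (v 2)

theorem b_self (hm : m.OK) (hl : Lk h C Ψ m) (hb : Bs Ψ m b) (bp : BP h Ψ) (z : V × V)
    (hz : ‖z.2‖ = 1) : b z z.1 = 0 ∧ b (z.1, -z.2) z.1 = 0 := by
  obtain ⟨h1, h2⟩ := b_up hm hl hb z hz z.1
  have e : (Ψ 0 (up hl z hz)).1.1 = z.1 := by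
    have := congrArg Prod.fst (hl.flow 0 (up hl z hz))
    rw [hm.zero] at this
    exact this.symm
  have h3 := bp.self (up hl z hz) 0
  have h4 := bp.back (up hl z hz) 0
  rw [e] at h3 h4
  rw [h1, h2, h3, h4]
  simp

/-- The lower function. -/
theorem bets_eq (hom : ∀ (r : ℝ) q, r ≠ 0 → q ≠ 0 → σ (r • q) = ((σ q).1, r • (σ q).2))
    (z : V) {q : V} (hq : q ≠ 0) : bet b σ (z, -q) = b (σ q) z := by
  have := hom (-1) q (by norm_num) hq
  rw [neg_one_smul, neg_one_smul] at this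
  simp [bet, this]

/-- The values along the geodesic. -/
theorem val (hm : m.OK) (hj : m.Jac) (hl : Lk h C Ψ m) (hb : Bs Ψ m b) (bp : BP h Ψ)
    (hom : ∀ (r : ℝ) q, r ≠ 0 → q ≠ 0 → σ (r • q) = ((σ q).1, r • (σ q).2))
    (hn : ∀ q, q ≠ 0 → ‖(σ q).2‖ = ‖q‖) (p : S2) (t : ℝ) :
    bet b σ ((m.Z t (σ p.1)).1, p.1) = t ∧ -bet b σ ((m.Z t (σ p.1)).1, -p.1) = t := by
  have u1 : ‖(σ p.1).2‖ = 1 := (hn _ (ne0 p)).trans (nrm1 p)
  obtain ⟨h1, h2⟩ := b_flow hm hj hl hb bp (σ p.1) u1 t (m.Z t (σ p.1)).1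
  obtain ⟨h3, h4⟩ := b_self hm hl hb bp (m.Z t (σ p.1)) ((hj.norm _ _).trans u1)
  rw [bets_eq hom _ (ne0 p)]
  exact ⟨by simp only [bet]; linarith, by linarith⟩

variable {K : V → V} {Om0 : Set V} {u : V}

theorem un_exp (t : ℝ) (q : V) : D3AR.un (Real.exp t • q) = D3AR.un q := by
  rw [D3AR.un, D3AR.un, norm_smul, Real.norm_of_nonneg (Real.exp_pos t).le, smul_smul, mul_inv,
    mul_right_comm, inv_mul_cancel₀ (Real.exp_pos t).ne', one_mul]

theorem exp_un (hA : CZ.Atl K Om Om0) {v : V} (hv : v ∈ Om) :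
    Real.exp (v 2) • D3AR.un (K v) = K v := by
  rw [D3AR.un, hA.nrm v hv, smul_smul, mul_inv_cancel₀ (Real.exp_pos _).ne', one_smul]

theorem pk_un (hA : CZ.Atl K Om Om0) {v : V} (hv : v ∈ Om) :
    PK m σ K v = m.Z (v 2) (σ (D3AR.un (K v))) := by
  rw [PK, D3NB.Ph, D3AR.un, hA.nrm v hv, Real.log_exp]

theorem ev_om (hA : CZ.Atl K Om Om0) (hu : u ∈ Om) : ∀ᶠ e in 𝓝 (0 : ℝ × ℝ), u + ioL e ∈ Om :=
  (Continuous.tendsto' (f := fun e : ℝ × ℝ => u + ioL e) (by fun_prop) 0 u (by simp)).eventually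
    (hA.op.mem_nhds hu)

theorem two_add (u : V) (e : ℝ × ℝ) : (u + ioL e) 2 = u 2 := by simp [ioL_apply, io_two]

/-- The slice of the atlas is a chart of the sphere. -/
theorem ch_of (hA : CZ.Atl K Om Om0) (hu : u ∈ Om) {k : ℝ × ℝ → S2}
    (hk : ∀ᶠ e in 𝓝 (0 : ℝ × ℝ), (k e).1 = D3AR.un (K (u + ioL e))) : Ch k (k 0) := by
  have k0 : (k 0).1 = D3AR.un (K u) := by simpa using hk.self_of_nhds
  have t1 : Tendsto (fun e : ℝ × ℝ => u + ioL e) (𝓝 0) (𝓝 u) :=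
    Continuous.tendsto' (by fun_prop) _ _ (by simp)
  refine ⟨rfl, ?_, ?_, fun U hU => ?_⟩
  · filter_upwards [hk.eventually_nhds, (ev_om hA hu).eventually_nhds] with e h1 h2
    rw [Topology.IsInducing.subtypeVal.continuousAt_iff]
    have c1 : ContinuousAt (fun e : ℝ × ℝ => K (u + ioL e)) e :=
      ContinuousAt.comp (f := fun e : ℝ × ℝ => u + ioL e)
        (hA.lip.continuousOn.continuousAt (hA.op.mem_nhds h2.self_of_nhds)) (by fun_prop)
    refine (c1.const_smul (Real.exp (u 2))⁻¹).congr ?_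
    filter_upwards [h1, h2] with e' h3 h4
    rw [Function.comp_apply, h3, D3AR.un, hA.nrm _ h4, two_add]
    rfl
  · obtain ⟨U, hU, hi⟩ := hA.inj u hu
    filter_upwards [hk, ev_om hA hu, t1.eventually hU] with e h1 h2 h3 h4
    have : K (u + ioL e) = K u := by
      rw [← exp_un hA h2, ← exp_un hA hu, ← h1, ← k0, h4, two_add]
    exact io_inj (add_eq_left.1 (hi h3 (mem_of_mem_nhds hU) this))
  · have t2 : Tendsto (fun v : V => ((v - u) 0, (v - u) 1)) (𝓝 u) (𝓝 0) :=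
      Continuous.tendsto' (by fun_prop) _ _ (by simp)
    have h1 := image_mem_map (m := K) (t2.eventually (hk.and hU))
    rw [hA.opn u hu] at h1
    have t3 : Tendsto (fun p : S2 => Real.exp (u 2) • p.1) (𝓝 (k 0)) (𝓝 (K u)) :=
      Continuous.tendsto' (by fun_prop) _ _ (by rw [k0, exp_un hA hu])
    filter_upwards [t3.eventually h1] with p ⟨v, hv, e⟩
    refine ⟨_, hv.2, Subtype.ext ?_⟩
    have e1 : v = u + ioL ((v - u) 0, (v - u) 1) + (v - u) 2 • bv 2 := by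
      ext i
      fin_cases i <;> simp [ioL_apply, io, bv]
    have e2 := congrArg D3AR.un e
    rw [e1, hA.tr, un_exp, un_exp] at e2
    rw [hv.1, e2, D3AR.un, nrm1, inv_one, one_smul]

theorem inj_of {A : V →L[ℝ] V} {w : V} (h : D3GB.trip w (A (bv 0)) (A (bv 1)) ≠ 0) (e : ℝ × ℝ)
    (he : A (ioL e) = 0) : e = 0 := by
  have e0 : e.1 • A (bv 0) + e.2 • A (bv 1) = 0 := by
    rw [← he, ioL_apply, io, map_add, map_smul, map_smul]
  have c0 := congrArg (fun v : V => v 0) e0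
  have c1 := congrArg (fun v : V => v 1) e0
  have c2 := congrArg (fun v : V => v 2) e0
  simp only [PiLp.add_apply, PiLp.smul_apply, smul_eq_mul, PiLp.zero_apply] at c0 c1 c2
  refine Prod.ext ((mul_eq_zero_iff_right h).1 ?_) ((mul_eq_zero_iff_right h).1 ?_)
  · simp only [D3GB.trip]
    linear_combination (w 2 * A (bv 1) 1 - w 1 * A (bv 1) 2) * c0 +
      (w 0 * A (bv 1) 2 - w 2 * A (bv 1) 0) * c1 + (w 1 * A (bv 1) 0 - w 0 * A (bv 1) 1) * c2
  · simp only [D3GB.trip]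
    linear_combination (w 1 * A (bv 0) 2 - w 2 * A (bv 0) 1) * c0 +
      (w 2 * A (bv 0) 0 - w 0 * A (bv 0) 2) * c1 + (w 0 * A (bv 0) 1 - w 1 * A (bv 0) 0) * c2

/-- The sandwich at a point of differentiability off the caustic. -/
theorem swA (hh : Riem h) (hG : ChrP h C) (ha : 0 < a) (h2 : Lb2P h C Ψ a) (bp : BP h Ψ)
    (hm : m.OK) (hj : m.Jac) (hl : Lk h C Ψ m) (hb : Bs Ψ m b) {a' : ℝ} (hA : CZ.Atl K Om Om0)
    (hg : Geo m σ a' K Om) : CZ.SwA m σ b K Om := by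
  intro u hu hd hc k hk
  have k0 : (k 0).1 = D3AR.un (K u) := by simpa using hk.self_of_nhds
  obtain ⟨v1, v2⟩ := val hm hj hl hb bp hg.hom hg.norm (k 0) (u 2)
  have p0 : m.Z (u 2) (σ (k 0).1) = PK m σ K u := by rw [k0, pk_un hA hu]
  rw [p0] at v1 v2
  refine ⟨ch_of hA hu hk, v2.trans v1.symm, ?_⟩
  have u1 : ∀ p : S2, ‖(σ p.1).2‖ = 1 := fun p => (hg.norm _ (ne0 p)).trans (nrm1 p)
  have e5 : ∀ᶠ e in 𝓝 (0 : ℝ × ℝ), PK m σ K (u + ioL e) = m.Z (u 2) (σ (k e).1) := by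
    filter_upwards [hk, ev_om hA hu] with e h1 h3
    rw [pk_un hA h3, two_add, h1]
    rfl
  set P := PK m σ K with hP
  have a0 : HasFDerivAt (fun e => u + ioL e) ioL 0 := ioL.hasFDerivAt.const_add u
  have d0 : HasFDerivAt P (fderiv ℝ P u) (u + ioL 0) := by
    rw [map_zero, add_zero]
    exact hd.hasFDerivAt
  have d1 : HasFDerivAt (fun e => P (u + ioL e)) ((fderiv ℝ P u).comp ioL) 0 :=
    HasFDerivAt.comp (g := P) (f := fun e => u + ioL e) 0 d0 a0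
  obtain ⟨M, hM⟩ := hg.con u hu
  obtain ⟨L, U, hU, hL⟩ := hg.lip hu
  rw [hA.op.nhdsWithin_eq hu] at hU
  have t2 : Tendsto (fun p : (ℝ × ℝ) × ℝ × ℝ => (u + ioL p.1, u + ioL p.2)) (𝓝 (0, 0)) (𝓝 (u, u)) :=
    Continuous.tendsto' (by fun_prop) _ _ (by simp)
  have key := frm (P := fun e => P (u + ioL e)) (x := 0) (K := |M| * ‖ioL‖ ^ 2) (L := L * ‖ioL‖)
    hh hG ha h2 hm hl hb (e5.mono fun e he => by
      rw [he, hj.norm]
      exact u1 _) d1 (by
      filter_upwards [t2.eventually hM, t2.eventually (prod_mem_nhds hU hU)] with p h3 h4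
      have e1 : u + ioL p.2 - (u + ioL p.1) = ioL (p.2 - p.1) := by rw [map_sub]; abel
      have n1 := ioL.le_opNorm (p.2 - p.1)
      constructor
      · have h5 := h3 (two_add u p.1) (two_add u p.2)
        simp only [e1] at h5
        refine h5.trans ((mul_le_mul_of_nonneg_right (le_abs_self M) (sq_nonneg _)).trans ?_)
        rw [mul_assoc, ← mul_pow]
        gcongr
      · have := hL.norm_sub_le h4.2 h4.1
        rw [e1] at this
        refine this.trans ?_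
        rw [mul_assoc]
        gcongr) (fun e he => inj_of hc e (by simpa [Ah] using he))
  filter_upwards [key, nhdsWithin_le_nhds e5] with e he h5
  simp only [zero_add, map_zero, add_zero, ContinuousLinearMap.comp_apply] at he
  obtain ⟨f1, f2⟩ := b_flow hm hj hl hb bp (σ (k e).1) (u1 _) (u 2) (P u).1
  rw [h5, f1, f2] at he
  have hH : CZ.Hf m P u e e =
      -⟪m.ver (P u) (fderiv ℝ P u (ioL e)), m.hor (P u) (fderiv ℝ P u (ioL e))⟫ / 2 := by
    change (-(1 / 2) : ℝ) * ⟪m.ver (P u) (fderiv ℝ P u (ioL e)),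
      m.hor (P u) (fderiv ℝ P u (ioL e))⟫ = _
    ring
  rw [hH, CZ.bT, CZ.bS, CZ.bS, v1, bets_eq hg.hom _ (ne0 _)]
  exact ⟨by linarith [he.1], he.2⟩

theorem sSW : CZ.SSW := by
  intro g h C C' Γ Λ _ _ _ _ Φ Ψ ρ F _ qh _ hC' _ _ _ a m m' φ ha hk _ _ hm' hj' _ hl' _ _ _ _ b hb
    x K Om Om0 hA hg
  obtain ⟨hG, h2, bp⟩ := kit qh hC' ha hk
  exact swA qh.rp.riem hG ha h2 bp hm' hj' hl' hb hA hg

end Pool.Agent.MP_3ee8cb_gt.CZS
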