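import Pool.Agent.MP_3ee8cb_gt.CZS.Sand
import Pool.Agent.MP_3ee8cb_gt.CZ.Defs
import Pool.Agent.MP_3ee8cb_gt.LV.RCHR
import Pool.Agent.MP_3ee8cb_gt.LV.RBP
import Pool.Agent.MP_3ee8cb_gt.LV.RHM
import Pool.Agent.MP_3ee8cb_gt.LV.RTAY2
import Pool.Agent.MP_3ee8cb_gt.LV.RLB2
import Pool.Agent.MP_3ee8cb_gt.TB.Fin

/-! The sandwich in a frame. -/

namespace Pool.Agent.MP_3ee8cb_gt.CZS

open Set Filter Topology D3
open CR (Met UT Riem ng bus)
open LV (Con ChrP Lb2P QP BP)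
open scoped RealInnerProductSpace

theorem chr_of {n : ℕ} {h : Met n} {C : TB.Chr n} (hh : Riem h) (hC : TB.IsChr h C) :
    ChrP h C := by
  obtain ⟨G, hG⟩ := LV.chr n h hh
  have : C = G := by
    funext x
    ext1 u
    ext1 v
    by_contra hne
    have h1 := hh.pos x _ (sub_ne_zero.2 hne)
    obtain ⟨d, hd⟩ : ∃ d, d = C x u v - G x u v := ⟨_, rfl⟩
    have h3 : h x (C x u v - G x u v) d = h x (C x u v) d - h x (G x u v) d := by
      rw [map_sub (h x), ContinuousLinearMap.sub_apply]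
    rw [← hd] at h1 h3
    have h2 := hC x u v d
    rw [hG.compat, hG.compat, hG.compat, hG.symm x v u, hG.symm x d u, hG.symm x d v,
      hh.symm x (G x u d) v] at h2
    linarith
  rw [this]
  exact hG

theorem kit {n : ℕ} {h : Met n} {C : TB.Chr n} {Λ : Type} [Group Λ] [MulAction Λ (CR.E n)]
    {Ψ : ℝ → UT h → UT h} {a : ℝ} (qh : QP h Λ Ψ) (hC : TB.IsChr h C) (ha : 0 < a)
    (hk : TB.CurvLe h a) : ChrP h C ∧ Lb2P h C Ψ a ∧ BP h Ψ := by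
  have hi : LV.Hinge h Ψ a := fun p q e s t hs ht => by
    have := TB.hinge n h Λ Ψ a qh.rp ha hk p q e s t hs ht
    rwa [mul_assoc] at this
  have hG := chr_of qh.rp.riem hC
  have bp := LV.bp n h Λ Ψ qh (LV.hm n h Λ Ψ qh a ha hi).1
  exact ⟨hG, LV.lb2 n h Λ Ψ qh C a ha hG
    (LV.tay2 n h Λ Ψ qh C hG (LV.ode n h C Ψ qh.rp.riem hG qh.rp.flow))
    (LV.lb n h Λ Ψ qh a ha hi bp), bp⟩

variable {E : Type*} [NormedAddCommGroup E] [NormedSpace ℝ E] {h : Met 3} {C : TB.Chr 3}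
  {Ψ : ℝ → UT h → UT h} {m : MF} {a : ℝ} {b : V × V → V → ℝ}

/-- The unit vector with given frame components. -/
def up (hl : Lk h C Ψ m) (z : V × V) (hz : ‖z.2‖ = 1) : UT h :=
  ⟨(z.1, m.R z.1 z.2), by rw [hl.orth, real_inner_self_eq_norm_sq, hz, one_pow]⟩

theorem b_up (hm : m.OK) (hl : Lk h C Ψ m) (hb : CZ.Bs Ψ m b) (z : V × V) (hz : ‖z.2‖ = 1)
    (y : V) : b z y = bus h Ψ (up hl z hz) y ∧
      b (z.1, -z.2) y = bus h Ψ (ng (up hl z hz)) y := by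
  constructor
  · rw [← hb 1 _ y one_pos]
    simp [SC.dn, up, hm.SR]
  · rw [← hb 1 _ y one_pos]
    simp [SC.dn, up, ng, hm.SR]

theorem b_flow (hm : m.OK) (hj : m.Jac) (hl : Lk h C Ψ m) (hb : CZ.Bs Ψ m b) (bp : BP h Ψ)
    (z : V × V) (hz : ‖z.2‖ = 1) (t : ℝ) (y : V) : b (m.Z t z) y = b z y + t ∧
      b ((m.Z t z).1, -(m.Z t z).2) y = b (z.1, -z.2) y - t := by
  have e : up hl (m.Z t z) ((hj.norm t z).trans hz) = Ψ t (up hl z hz) := by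
    have := hl.flow t (up hl z hz)
    simp only [up, hm.SR] at this
    apply Subtype.ext
    simp only [up, this, hm.RS]
  obtain ⟨h1, h2⟩ := b_up hm hl hb (m.Z t z) ((hj.norm t z).trans hz) y
  obtain ⟨h3, h4⟩ := b_up hm hl hb z hz y
  rw [h1, h2, h3, h4, e]
  exact ⟨bp.shift _ _ _, bp.bshift _ _ _⟩

/-- The sandwich with a margin, in a frame. -/
theorem frm0 (hh : Riem h) (hG : ChrP h C) (h2 : Lb2P h C Ψ a) (hm : m.OK) (hl : Lk h C Ψ m)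
    (hb : CZ.Bs Ψ m b) {P : E → V × V} {D : E →L[ℝ] V × V} {x : E}
    (hu : ∀ᶠ e in 𝓝 x, ‖(P e).2‖ = 1) (hP : HasFDerivAt P D x) {K L : ℝ}
    (hc : ∀ᶠ p : E × E in 𝓝 (x, x),
      |⟪(P p.1).2, m.hor (P p.1) (P p.2 - P p.1)⟫| ≤ K * ‖p.2 - p.1‖ ^ 2 ∧
        ‖P p.2 - P p.1‖ ≤ L * ‖p.2 - p.1‖) {ε : ℝ} (hε : 0 < ε) : ∀ᶠ e in 𝓝 (0 : E),
      -b (P (x + e)) (P x).1 ≤ -⟪m.ver (P x) (D e), m.hor (P x) (D e)⟫ / 2 -
        a / 2 * ‖m.hor (P x) (D e)‖ ^ 2 + ε * ‖e‖ ^ 2 ∧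
      -⟪m.ver (P x) (D e), m.hor (P x) (D e)⟫ / 2 + a / 2 * ‖m.hor (P x) (D e)‖ ^ 2 -
        ε * ‖e‖ ^ 2 ≤ b ((P (x + e)).1, -(P (x + e)).2) (P x).1 := by
  classical
  have u0 := hu.self_of_nhds
  let w : E → UT h := fun e => if he : ‖(P e).2‖ = 1 then up hl (P e) he else up hl (P x) u0
  have hw : ∀ e (he : ‖(P e).2‖ = 1), w e = up hl (P e) he := fun e he => dif_pos he
  have hq : HasFDerivAt (fun e => (w e).1.1) ((ContinuousLinearMap.fst ℝ V V).comp D) x := by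
    refine hP.fst.congr_of_eventuallyEq ?_
    filter_upwards [hu] with e he
    rw [hw e he]
    rfl
  have dR : HasFDerivAt m.R (fderiv ℝ m.R (P x).1) (P x).1 :=
    (hm.cR.differentiable (by norm_num) _).hasFDerivAt
  have hv := ((dR.comp x hP.fst).clm_apply hP.snd).congr_of_eventuallyEq
    (f₁ := fun e => (w e).1.2) (by
      filter_upwards [hu] with e he
      rw [hw e he]
      rfl)
  have key : ∀ y c u, h y (m.R y c) u = ⟪c, m.S y u⟫ := fun y c u => by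
    rw [← hl.orth y, hm.RS]
  have hL : Leg w x := by
    refine ⟨K, L, ?_⟩
    filter_upwards [hc, (continuousAt_fst (p := (x, x))).eventually hu,
      (continuousAt_snd (p := (x, x))).eventually hu] with p h1 h3 h4
    rw [hw _ h3, hw _ h4]
    exact ⟨by simpa [up, key, MF.hor] using h1.1, (norm_fst_le (P p.2 - P p.1)).trans h1.2⟩
  have t1 : Tendsto (fun e : E => x + e) (𝓝 0) (𝓝 x) :=
    Continuous.tendsto' (by fun_prop) _ _ (by simp)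
  filter_upwards [sand0 hh hG h2 hq hv hL hε, t1.eventually hu] with e h1 he
  obtain ⟨b1, b2⟩ := b_up hm hl hb (P (x + e)) he (P x).1
  rw [hw _ he, hw _ u0] at h1
  have e1 : h (P x).1 (D e).1 (D e).1 = ‖m.hor (P x) (D e)‖ ^ 2 := by
    rw [← real_inner_self_eq_norm_sq, ← hl.orth (P x).1]
    simp [MF.hor, hm.RS]
  have e2 : m.R (P x).1 (m.ver (P x) (D e)) = m.R (P x).1 (D e).2 +
      fderiv ℝ m.R (P x).1 (D e).1 (P x).2 + C (P x).1 (D e).1 (m.R (P x).1 (P x).2) := by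
    simp [MF.ver, hl.conn, hm.RS, add_assoc]
  have e3 := key (P x).1 (m.ver (P x) (D e)) (D e).1
  rw [e2] at e3
  rw [b1, b2]
  simp only [Nf, up, ContinuousLinearMap.comp_apply, ContinuousLinearMap.coe_fst',
    ContinuousLinearMap.coe_snd', ContinuousLinearMap.add_apply, ContinuousLinearMap.flip_apply,
    Function.comp_apply] at h1
  rw [e1, e3] at h1
  exact h1

/-- The strict sandwich in a frame. -/
theorem frm [FiniteDimensional ℝ E] (hh : Riem h) (hG : ChrP h C) (ha : 0 < a) (h2 : Lb2P h C Ψ a)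
    (hm : m.OK) (hl : Lk h C Ψ m) (hb : CZ.Bs Ψ m b) {P : E → V × V} {D : E →L[ℝ] V × V} {x : E}
    (hu : ∀ᶠ e in 𝓝 x, ‖(P e).2‖ = 1) (hP : HasFDerivAt P D x) {K L : ℝ}
    (hc : ∀ᶠ p : E × E in 𝓝 (x, x),
      |⟪(P p.1).2, m.hor (P p.1) (P p.2 - P p.1)⟫| ≤ K * ‖p.2 - p.1‖ ^ 2 ∧
        ‖P p.2 - P p.1‖ ≤ L * ‖p.2 - p.1‖) (hi : ∀ e, m.hor (P x) (D e) = 0 → e = 0) :
    ∀ᶠ e in 𝓝[≠] (0 : E), -b (P (x + e)) (P x).1 < -⟪m.ver (P x) (D e), m.hor (P x) (D e)⟫ / 2 ∧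
      -⟪m.ver (P x) (D e), m.hor (P x) (D e)⟫ / 2 < b ((P (x + e)).1, -(P (x + e)).2) (P x).1 := by
  obtain ⟨c, c0, hc'⟩ := coer (T := innerSL ℝ (E := V)) (Q := (m.hor (P x)).comp D)
    (fun v hv => real_inner_self_pos.2 hv) hi
  have hε : 0 < a * c / 4 := by positivity
  filter_upwards [nhdsWithin_le_nhds (frm0 hh hG h2 hm hl hb hu hP hc hε), self_mem_nhdsWithin]
    with e h1 he
  have n0 : 0 < ‖e‖ ^ 2 := pow_pos (norm_pos_iff.2 he) 2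
  have h3 : c * ‖e‖ ^ 2 ≤ ‖m.hor (P x) (D e)‖ ^ 2 := by
    rw [← real_inner_self_eq_norm_sq (m.hor (P x) (D e))]
    exact hc' e
  have := mul_le_mul_of_nonneg_left h3 ha.le
  have : 0 < a * c * ‖e‖ ^ 2 := by positivity
  constructor <;> nlinarith [h1.1, h1.2]

end Pool.Agent.MP_3ee8cb_gt.CZS
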