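import Pool.Agent.MP_3ee8cb_gt.CZ.Spec

/-! The form of a front along a ray. -/

namespace Pool.Agent.MP_3ee8cb_gt.CZ

open Set D3
open D3GB (trip bv)
open scoped RealInnerProductSpace

namespace Ray2

theorem inn (a b : V) : ⟪a, b⟫ = a 0 * b 0 + a 1 * b 1 + a 2 * b 2 := by
  simp [PiLp.inner_apply, Fin.sum_univ_three, mul_comm]

theorem gram {w a a' : V} (b b' : V) (hw : ‖w‖ = 1) (ha : ⟪w, a⟫ = 0) (ha' : ⟪w, a'⟫ = 0) :
    trip w b b' * trip w a a' = ⟪b, a⟫ * ⟪b', a'⟫ - ⟪b, a'⟫ * ⟪b', a⟫ := by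
  have n : ⟪w, w⟫ = 1 := by rw [real_inner_self_eq_norm_sq, hw, one_pow]
  have e : trip w b b' * trip w a a' = ⟪w, w⟫ * (⟪b, a⟫ * ⟪b', a'⟫ - ⟪b, a'⟫ * ⟪b', a⟫) -
      ⟪w, a⟫ * (⟪b, w⟫ * ⟪b', a'⟫ - ⟪b, a'⟫ * ⟪b', w⟫) +
      ⟪w, a'⟫ * (⟪b, w⟫ * ⟪b', a⟫ - ⟪b, a⟫ * ⟪b', w⟫) := by
    simp only [inn, trip]
    ring
  rw [e, n, ha, ha']
  ring

theorem pl (x y : ℝ) : (x • bv 0 + y • bv 1 : V) 0 = x ∧ (x • bv 0 + y • bv 1 : V) 1 = y ∧
    (x • bv 0 + y • bv 1 : V) 2 = 0 := by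
  simp [bv]

theorem dec {e : V} (h : e 2 = 0) : e = e 0 • bv 0 + e 1 • bv 1 := by
  ext i
  fin_cases i <;> simp [bv, h]

theorem b0 : (bv 0 : V) 2 = 0 := by simp [bv]

theorem b1 : (bv 1 : V) 2 = 0 := by simp [bv]

theorem ne {e : V} (h : e 2 = 0) (h0 : e ≠ 0) : 0 < e 0 ^ 2 + e 1 ^ 2 := by
  refine lt_of_le_of_ne (by positivity) fun q => h0 ?_
  have p0 : e 0 = 0 := by nlinarith [sq_nonneg (e 0), sq_nonneg (e 1)]
  have p1 : e 1 = 0 := by nlinarith [sq_nonneg (e 0), sq_nonneg (e 1)]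
  rw [dec h, p0, p1, zero_smul, zero_smul, add_zero]

variable {m : MF} {P : V → V × V} {u : V}

/-- The coefficients of the form. -/
theorem form (n1 : ‖(P u).2‖ = 1) (leg : ∀ e : V, e 2 = 0 → ⟪(P u).2, Ah m P u e⟫ = 0)
    (sym : ∀ e e' : V, e 2 = 0 → e' 2 = 0 →
      ⟪Av m P u e, Ah m P u e'⟫ = ⟪Ah m P u e, Av m P u e'⟫) :
    ∃ p q r : ℝ, 4 * (p * r - q ^ 2) = yy m P u * dl m P u ∧
      ∀ e : V, e 2 = 0 → nf m P u e = p * e 0 ^ 2 + 2 * q * (e 0 * e 1) + r * e 1 ^ 2 := by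
  have s := sym _ _ b0 b1
  rw [real_inner_comm (Av m P u (bv 1))] at s
  refine ⟨-⟪Av m P u (bv 0), Ah m P u (bv 0)⟫ / 2, -⟪Av m P u (bv 0), Ah m P u (bv 1)⟫ / 2,
    -⟪Av m P u (bv 1), Ah m P u (bv 1)⟫ / 2, ?_, fun e he => ?_⟩
  · rw [yy, dl, gram _ _ n1 (leg _ b0) (leg _ b1), ← s]
    ring
  · have h := dec he
    generalize e 0 = x at h ⊢
    generalize e 1 = y at h ⊢
    rw [nf, h]
    simp only [map_add, map_smul, inner_add_left, inner_add_right, real_inner_smul_left,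
      real_inner_smul_right, ← s]
    ring

theorem der (ho : m.OK) (hj : m.Jac) (z ξ : V × V) (t : ℝ) :
    HasDerivAt (fun s => -⟪m.J' z ξ s, m.J z ξ s⟫ / 2) (-(‖m.J' z ξ t‖ ^ 2 +
      -⟪m.K (m.Z t z).1 (m.J z ξ t) (m.Z t z).2 (m.Z t z).2, m.J z ξ t⟫) / 2) t := by
  refine (((hj.d2 z ξ t).inner ℝ (hj.d1 z ξ t)).neg.div_const 2).congr_deriv ?_
  have h := ho.skew (m.Z t z).1 (m.R (m.Z t z).1 (m.Z t z).2) (m.J z ξ t) (m.J' z ξ t)
  rw [inner_sub_right, inner_sub_left, inner_neg_left, real_inner_self_eq_norm_sq]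
  rw [real_inner_comm, real_inner_comm (m.om _ _ (m.J' z ξ t))] at h
  unfold MF.w
  linarith

theorem inj (pos : 0 < yy m P u) {e : V} (he : e 2 = 0) (h0 : e ≠ 0) : Av m P u e ≠ 0 := by
  intro h
  have n := ne he h0
  rw [dec he, map_add, map_smul, map_smul] at h
  have c := fun i => congrArg (fun v : V => v i) h
  have c0 := c 0
  have c1 := c 1
  have c2 := c 2
  simp only [PiLp.add_apply, PiLp.smul_apply, smul_eq_mul, PiLp.zero_apply] at c0 c1 c2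
  rw [yy] at pos
  generalize Av m P u (bv 0) = a at *
  generalize Av m P u (bv 1) = b at *
  generalize (P u).2 = w at *
  have p0 : e 0 * trip w a b = 0 := by
    rw [trip]
    linear_combination (w 1 * -b 2 + w 2 * b 1) * c0 + (w 0 * b 2 - w 2 * b 0) * c1 +
      (w 1 * b 0 - w 0 * b 1) * c2
  have p1 : e 1 * trip w a b = 0 := by
    rw [trip]
    linear_combination (w 1 * a 2 - w 2 * a 1) * c0 + (w 2 * a 0 - w 0 * a 2) * c1 +
      (w 0 * a 1 - w 1 * a 0) * c2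
  rw [(mul_eq_zero.1 p0).resolve_right pos.ne', (mul_eq_zero.1 p1).resolve_right pos.ne'] at n
  simp at n

theorem null {p q r : ℝ} (h : p * r - q ^ 2 = 0) : ∃ e : V, e 2 = 0 ∧ e ≠ 0 ∧
    p * e 0 ^ 2 + 2 * q * (e 0 * e 1) + r * e 1 ^ 2 = 0 := by
  rcases eq_or_ne p 0 with p0 | p0
  · obtain ⟨h0, h1, h2⟩ := pl 1 0
    refine ⟨_, h2, fun z => ?_, by rw [h0, h1, p0]; ring⟩
    rw [z] at h0
    simp at h0
  · obtain ⟨h0, h1, h2⟩ := pl (-q) p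
    refine ⟨_, h2, fun z => p0 ?_, by rw [h0, h1]; linear_combination p * h⟩
    rw [z] at h1
    exact h1.symm

end Ray2

open Ray2

variable {m : MF} {P : V → V × V} {u : V}

theorem dpm (n1 : ‖(P u).2‖ = 1) (leg : ∀ e : V, e 2 = 0 → ⟪(P u).2, Ah m P u e⟫ = 0)
    (sym : ∀ e e' : V, e 2 = 0 → e' 2 = 0 →
      ⟪Av m P u e, Ah m P u e'⟫ = ⟪Ah m P u e, Av m P u e'⟫) (pos : 0 < yy m P u) :
    (0 < dl m P u → Mn m P u ∨ Mx m P u) ∧
    (dl m P u < 0 → ∃ e e' : V, e 2 = 0 ∧ e' 2 = 0 ∧ 0 < nf m P u e ∧ nf m P u e' < 0) := by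
  obtain ⟨p, q, r, hd, hf⟩ := form n1 leg sym
  refine ⟨fun h => ?_, fun h => ?_⟩
  · have d : 0 < p * r - q ^ 2 := by linarith [mul_pos pos h]
    have k : ∀ e : V, e 2 = 0 → e ≠ 0 → 0 < p * nf m P u e := fun e he h0 => by
      have n := ne he h0
      have e1 : p * nf m P u e = (p * e 0 + q * e 1) ^ 2 + (p * r - q ^ 2) * e 1 ^ 2 := by
        rw [hf e he]
        ring
      rw [e1]
      rcases eq_or_ne (e 1) 0 with z | z
      · have p0 : p ≠ 0 := fun p0 => by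
          rw [p0] at d
          nlinarith [sq_nonneg q]
        have e0 : e 0 ≠ 0 := fun e0 => by
          rw [e0, z] at n
          simp at n
        rw [z]
        simp only [mul_zero, add_zero, ne_eq, OfNat.ofNat_ne_zero, not_false_eq_true, zero_pow]
        positivity
      · positivity
    rcases lt_trichotomy 0 p with p0 | p0 | p0
    · exact .inl fun e he h0 => (pos_iff_pos_of_mul_pos (k e he h0)).1 p0
    · rw [← p0] at d
      nlinarith [sq_nonneg q]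
    · exact .inr fun e he h0 => by nlinarith [k e he h0]
  · have d : p * r - q ^ 2 < 0 := by linarith [mul_neg_of_pos_of_neg pos h]
    have v : ∀ x y, nf m P u (x • bv 0 + y • bv 1) = p * x ^ 2 + 2 * q * (x * y) + r * y ^ 2 :=
      fun x y => by rw [hf _ (pl x y).2.2, (pl x y).1, (pl x y).2.1]
    rcases lt_trichotomy 0 p with p0 | p0 | p0
    · refine ⟨_, _, (pl 1 0).2.2, (pl (-q) p).2.2, ?_, ?_⟩ <;> rw [v] <;> nlinarith
    · have q0 : q ≠ 0 := fun q0 => by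
        rw [← p0, q0] at d
        simp at d
      have w : ∀ c, nf m P u (((c - r) / (2 * q)) • bv 0 + (1 : ℝ) • bv 1) = c := fun c => by
        rw [v, ← p0]
        field_simp
        ring
      exact ⟨_, _, (pl _ _).2.2, (pl _ _).2.2, (w 1).symm ▸ one_pos,
        (w (-1)).symm ▸ neg_one_lt_zero⟩
    · refine ⟨_, _, (pl (-q) p).2.2, (pl 1 0).2.2, ?_, ?_⟩ <;> rw [v] <;> nlinarith

theorem ray2 (ho : m.OK) (hj : m.Jac) (hu : m.Up 0)
    (n1 : ∀ s : ℝ, ‖(P (u + s • bv 2)).2‖ = 1)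
    (jh : ∀ (s : ℝ) (e : V), e 2 = 0 → Ah m P (u + s • bv 2) e = m.J (P u) (fderiv ℝ P u e) s)
    (jv : ∀ (s : ℝ) (e : V), e 2 = 0 → Av m P (u + s • bv 2) e = m.J' (P u) (fderiv ℝ P u e) s)
    (leg : ∀ (s : ℝ) (e : V), e 2 = 0 → ⟪(P (u + s • bv 2)).2, Ah m P (u + s • bv 2) e⟫ = 0)
    (sym : ∀ (s : ℝ) (e e' : V), e 2 = 0 → e' 2 = 0 →
      ⟪Av m P (u + s • bv 2) e, Ah m P (u + s • bv 2) e'⟫ =
        ⟪Ah m P (u + s • bv 2) e, Av m P (u + s • bv 2) e'⟫)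
    (pos : ∀ s : ℝ, 0 < yy m P (u + s • bv 2)) :
    (∀ e : V, e 2 = 0 → e ≠ 0 → StrictAnti fun s : ℝ => nf m P (u + s • bv 2) e) ∧
      {s : ℝ | dl m P (u + s • bv 2) = 0}.Finite := by
  have anti : ∀ e : V, e 2 = 0 → e ≠ 0 → StrictAnti fun s : ℝ => nf m P (u + s • bv 2) e := by
    intro e he h0
    simp only [nf, jh _ e he, jv _ e he]
    refine strictAnti_of_deriv_neg fun t => ?_
    rw [(der ho hj _ _ t).deriv]
    have h1 := hu (m.Z t (P u)).1 (m.J (P u) (fderiv ℝ P u e) t) (m.Z t (P u)).2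
    have h2 := inj (pos t) he h0
    rw [jv _ e he] at h2
    have h3 := pow_pos (norm_pos_iff.2 h2) 2
    linarith
  refine ⟨anti, ?_⟩
  have key : ∀ s : ℝ, dl m P (u + s • bv 2) = 0 → ∃ p q r : ℝ, p * r - q ^ 2 = 0 ∧
      ∀ e : V, e 2 = 0 →
        nf m P (u + s • bv 2) e = p * e 0 ^ 2 + 2 * q * (e 0 * e 1) + r * e 1 ^ 2 := fun s h => by
    obtain ⟨p, q, r, hd, hf⟩ := form (n1 s) (leg s) (sym s)
    rw [h, mul_zero] at hd
    exact ⟨p, q, r, by linarith, hf⟩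
  have ker : ∀ s : ℝ, dl m P (u + s • bv 2) = 0 → ∃ e : V, e 2 = 0 ∧ e ≠ 0 ∧
      nf m P (u + s • bv 2) e = 0 := fun s h => by
    obtain ⟨p, q, r, hd, hf⟩ := key s h
    obtain ⟨e, he, h0, z⟩ := null hd
    exact ⟨e, he, h0, (hf e he).trans z⟩
  by_contra hinf
  obtain ⟨F, hF, hc⟩ := (show Set.Infinite _ from hinf).exists_subset_card_eq 3
  have hm := fun i : Fin 3 => hF (F.orderEmbOfFin_mem hc i)
  have h01 := (F.orderEmbOfFin hc).strictMono (show (0 : Fin 3) < 1 by decide)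
  have h12 := (F.orderEmbOfFin hc).strictMono (show (1 : Fin 3) < 2 by decide)
  obtain ⟨a, pa, a0, ja⟩ := ker _ (hm 0)
  obtain ⟨c, pc, c0, jc⟩ := ker _ (hm 2)
  obtain ⟨p, q, r, hd, hf⟩ := key _ (hm 1)
  have q0 := anti a pa a0 h01
  have q2 := anti c pc c0 h12
  simp only [ja, jc, hf a pa, hf c pc] at q0 q2
  have e1 : ∀ x y : ℝ, p * (p * x ^ 2 + 2 * q * (x * y) + r * y ^ 2) = (p * x + q * y) ^ 2 :=
    fun x y => by linear_combination y ^ 2 * hd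
  have e2 : ∀ x y : ℝ, r * (p * x ^ 2 + 2 * q * (x * y) + r * y ^ 2) = (q * x + r * y) ^ 2 :=
    fun x y => by linear_combination x ^ 2 * hd
  have z : ∀ k A B : ℝ, A < 0 → 0 < B → 0 ≤ k * A → 0 ≤ k * B → k = 0 := fun k A B _ _ _ _ => by
    rcases lt_trichotomy k 0 with h | h | h
    · nlinarith
    · exact h
    · nlinarith
  have p0 := z p _ _ q0 q2 (e1 _ _ ▸ sq_nonneg _) (e1 _ _ ▸ sq_nonneg _)
  have r0 := z r _ _ q0 q2 (e2 _ _ ▸ sq_nonneg _) (e2 _ _ ▸ sq_nonneg _)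
  have q0' : q = 0 := by
    rw [p0] at hd
    nlinarith [sq_nonneg q]
  rw [p0, r0, q0'] at q2
  simp at q2

end Pool.Agent.MP_3ee8cb_gt.CZ
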