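import Pool.Agent.MP_3ee8cb_gt.CZP.Peano
import Pool.Agent.MP_3ee8cb_gt.LV.Spec

/-! The two Busemann functions of a Legendrian family are separated by a quadratic form. -/

namespace Pool.Agent.MP_3ee8cb_gt.CZS

open Set Filter Topology Asymptotics
open CR (Met UT Riem ng bus)
open LV (Con ChrP Lb2P)

variable {E F : Type*} [NormedAddCommGroup E] [NormedSpace ℝ E] [NormedAddCommGroup F]
  [NormedSpace ℝ F]

theorem ev_ball {p : E → Prop} (h : ∀ᶠ e in 𝓝 (0 : E), p e) :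
    ∃ ρ, 0 < ρ ∧ ∀ e, ‖e‖ ≤ ρ → p e := by
  obtain ⟨ρ, h0, h1⟩ := Metric.eventually_nhds_iff.1 h
  exact ⟨ρ / 2, by positivity, fun e he => h1 (by rw [dist_zero_right]; linarith)⟩

theorem ev_der {q : E → F} {Q : E →L[ℝ] F} {x : E} (hq : HasFDerivAt q Q x) {ε : ℝ} (hε : 0 < ε) :
    ∀ᶠ e in 𝓝 (0 : E), ‖q (x + e) - q x - Q e‖ ≤ ε * ‖e‖ :=
  (hasFDerivAt_iff_isLittleO_nhds_zero.1 hq).def hε

/-- Second order expansion of the pairing along a Legendrian family. -/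
theorem tay2 {r : E → F →L[ℝ] ℝ} {q : E → F} {R : E →L[ℝ] F →L[ℝ] ℝ} {Q : E →L[ℝ] F} {x : E}
    {C L : ℝ} (hr : HasFDerivAt r R x) (hq : HasFDerivAt q Q x)
    (h : ∀ᶠ p : E × E in 𝓝 (x, x), |r p.1 (q p.2 - q p.1)| ≤ C * ‖p.2 - p.1‖ ^ 2 ∧
      ‖q p.2 - q p.1‖ ≤ L * ‖p.2 - p.1‖) {ε : ℝ} (hε : 0 < ε) :
    ∀ᶠ e in 𝓝 (0 : E), |r (x + e) (q (x + e) - q x) - R e (Q e) / 2| ≤ ε * ‖e‖ ^ 2 := by
  set K := 2 * |L| + ‖R‖ + 1 with hK
  have K0 : 0 < K := by positivity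
  have hη : 0 < ε / K := by positivity
  have t2 : Tendsto (fun p : E × E => (x + p.1, x + p.2)) (𝓝 0) (𝓝 (x, x)) :=
    Continuous.tendsto' (by fun_prop) _ _ (by simp)
  obtain ⟨ρ1, p1, h1⟩ := ev_ball (t2.eventually h)
  obtain ⟨ρ2, p2, h2⟩ := ev_ball ((ev_der hr hη).and (ev_der hq hη))
  have hρ : 0 < min ρ1 ρ2 := lt_min p1 p2
  filter_upwards [Metric.closedBall_mem_nhds (0 : E) hρ] with e he
  rw [mem_closedBall_zero_iff] at he
  have e1 : ‖e‖ ≤ ρ1 := he.trans (min_le_left _ _)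
  have e2 : ‖e‖ ≤ ρ2 := he.trans (min_le_right _ _)
  have n0 := norm_nonneg e
  have hp : ∀ a b : E, ‖a‖ ≤ ‖e‖ → ‖b‖ ≤ ‖e‖ →
      |r (x + a) (q (x + b) - q (x + a))| ≤ C * ‖b - a‖ ^ 2 ∧
        ‖q (x + b) - q (x + a)‖ ≤ |L| * ‖b - a‖ := fun a b ha hb => by
    have := h1 (a, b) (by rw [Prod.norm_def]; exact max_le (ha.trans e1) (hb.trans e1))
    simp only [add_sub_add_left_eq_sub] at this
    exact ⟨this.1, this.2.trans (mul_le_mul_of_nonneg_right (le_abs_self L) (norm_nonneg _))⟩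
  have key := CZP.edge (ContinuousLinearMap.id ℝ (F →L[ℝ] ℝ)) (r := r) (q := q) (k := fun _ => 0)
    (R := R) (Q := Q) (x := x) (C := C) (L := |L|) (δ := ε / K * ‖e‖) (ρ := ‖e‖) (by positivity)
    (fun a b ha hb => ⟨by
      rw [sub_self, zero_sub, abs_neg]
      exact (hp a b ha hb).1, (hp a b ha hb).2⟩)
    (fun a ha => (h2 a (ha.trans e2)).1.trans (mul_le_mul_of_nonneg_left ha hη.le))
    (fun a ha => (h2 a (ha.trans e2)).2.trans (mul_le_mul_of_nonneg_left ha hη.le))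
    (a := 0) (v := e) (by simp) (by simp)
  have nid : ‖ContinuousLinearMap.id ℝ (F →L[ℝ] ℝ)‖ ≤ 1 := ContinuousLinearMap.norm_id_le
  have key2 : |(r x + R e) (q (x + e) - q x) - R e (Q e) / 2| ≤ ε / K * ‖e‖ * ‖e‖ * (|L| + ‖R‖) := by
    refine le_of_eq_of_le ?_ (key.trans ?_)
    · rw [← abs_neg]
      congr 1
      simp only [zero_add, add_zero, map_zero, ContinuousLinearMap.id_apply, map_add, map_sub,
        map_smul, ContinuousLinearMap.add_apply, smul_eq_mul]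
      ring
    · have : ‖ContinuousLinearMap.id ℝ (F →L[ℝ] ℝ)‖ * (ε / K * ‖e‖) ≤ ε / K * ‖e‖ :=
        mul_le_of_le_one_left (by positivity) nid
      gcongr
  have b1 : |(r (x + e) - r x - R e) (q (x + e) - q x)| ≤ ε / K * ‖e‖ * (|L| * ‖e‖) := by
    refine ((r (x + e) - r x - R e).le_opNorm _).trans ?_
    have := (hp 0 e (by simp) le_rfl).2
    simp only [add_zero, sub_zero] at this
    exact mul_le_mul (h2 e e2).1 this (norm_nonneg _) (by positivity)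
  have e3 : r (x + e) (q (x + e) - q x) - R e (Q e) / 2 =
      (r (x + e) - r x - R e) (q (x + e) - q x) +
        ((r x + R e) (q (x + e) - q x) - R e (Q e) / 2) := by
    simp only [ContinuousLinearMap.add_apply, ContinuousLinearMap.sub_apply]
    ring
  rw [e3]
  refine (abs_add_le _ _).trans ((add_le_add b1 key2).trans ?_)
  have : ε / K * (2 * |L| + ‖R‖) ≤ ε := by
    rw [div_mul_eq_mul_div, div_le_iff₀ K0]
    nlinarith
  nlinarith [mul_le_mul_of_nonneg_right this (sq_nonneg ‖e‖)]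

/-- Expansion of a quadratic expression. -/
theorem quad {T : E → F →L[ℝ] F →L[ℝ] ℝ} {q : E → F} {Q : E →L[ℝ] F} {x : E}
    (hT : ContinuousAt T x) (hq : HasFDerivAt q Q x) {ε : ℝ} (hε : 0 < ε) :
    ∀ᶠ e in 𝓝 (0 : E), |T (x + e) (q x - q (x + e)) (q x - q (x + e)) - T x (Q e) (Q e)| ≤
      ε * ‖e‖ ^ 2 := by
  set K := (‖Q‖ + 1) ^ 2 + ‖T x‖ * (2 * ‖Q‖ + 1) with hK
  have K0 : 0 < K := by positivity
  have hη : 0 < min (ε / K) 1 := lt_min (by positivity) one_pos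
  have t1 : Tendsto (fun e : E => x + e) (𝓝 0) (𝓝 x) :=
    Continuous.tendsto' (by fun_prop) _ _ (by simp)
  have c1 : ∀ᶠ e in 𝓝 (0 : E), ‖T (x + e) - T x‖ ≤ min (ε / K) 1 := by
    filter_upwards [t1.eventually ((Metric.tendsto_nhds (α := F →L[ℝ] F →L[ℝ] ℝ)).1 hT.tendsto _ hη)] with e he
    exact ((dist_eq_norm (T (x + e)) (T x)).symm.trans_lt he).le
  filter_upwards [c1, ev_der hq hη] with e h1 h2
  set η := min (ε / K) 1
  have η1 : η ≤ 1 := min_le_right _ _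
  have η2 : η * K ≤ ε := (le_div_iff₀ K0).1 (min_le_left _ _)
  set d := q (x + e) - q x with hd
  have n0 := norm_nonneg e
  have hQ : ‖Q e‖ ≤ ‖Q‖ * ‖e‖ := Q.le_opNorm e
  have hd1 : ‖d‖ ≤ (‖Q‖ + 1) * ‖e‖ := by
    have : ‖d‖ ≤ ‖d - Q e‖ + ‖Q e‖ := by simpa using norm_add_le (d - Q e) (Q e)
    nlinarith
  have e1 : q x - q (x + e) = -d := by rw [hd]; abel
  have e2 : T (x + e) (-d) (-d) - T x (Q e) (Q e) =
      (T (x + e) - T x) d d + (T x (d - Q e) d + T x (Q e) (d - Q e)) := by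
    simp only [map_neg, map_sub, ContinuousLinearMap.neg_apply, ContinuousLinearMap.sub_apply]
    ring
  rw [e1, e2]
  have b1 : |(T (x + e) - T x) d d| ≤ η * ((‖Q‖ + 1) * ‖e‖) * ((‖Q‖ + 1) * ‖e‖) := by
    refine ((T (x + e) - T x).le_opNorm₂ _ _).trans ?_
    gcongr
  have b2 : |T x (d - Q e) d| ≤ ‖T x‖ * (η * ‖e‖) * ((‖Q‖ + 1) * ‖e‖) := by
    refine ((T x).le_opNorm₂ _ _).trans ?_
    gcongr
  have b3 : |T x (Q e) (d - Q e)| ≤ ‖T x‖ * (‖Q‖ * ‖e‖) * (η * ‖e‖) := by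
    refine ((T x).le_opNorm₂ _ _).trans ?_
    gcongr
  refine (abs_add_le _ _).trans ((add_le_add b1 ((abs_add_le _ _).trans (add_le_add b2 b3))).trans ?_)
  have : η * K * ‖e‖ ^ 2 ≤ ε * ‖e‖ ^ 2 := mul_le_mul_of_nonneg_right η2 (sq_nonneg _)
  rw [hK] at this
  nlinarith

theorem coer [FiniteDimensional ℝ E] {T : F →L[ℝ] F →L[ℝ] ℝ} {Q : E →L[ℝ] F}
    (hT : ∀ v, v ≠ 0 → 0 < T v v) (hQ : ∀ e, Q e = 0 → e = 0) :
    ∃ c, 0 < c ∧ ∀ e, c * ‖e‖ ^ 2 ≤ T (Q e) (Q e) := by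
  have : ProperSpace E := FiniteDimensional.proper_real E
  rcases (Metric.sphere (0 : E) 1).eq_empty_or_nonempty with h0 | h0
  · refine ⟨1, one_pos, fun e => ?_⟩
    by_cases he : e = 0
    · simp [he]
    · exfalso
      have : ‖e‖⁻¹ • e ∈ Metric.sphere (0 : E) 1 := by
        simp [norm_smul, inv_mul_cancel₀ (norm_ne_zero_iff.2 he)]
      rw [h0] at this
      exact this
  obtain ⟨u, hu, hm⟩ := (isCompact_sphere (0 : E) 1).exists_isMinOn h0
    (f := fun e => T (Q e) (Q e)) (by fun_prop)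
  have u0 : u ≠ 0 := fun h => by simp [h] at hu
  refine ⟨T (Q u) (Q u), hT _ fun h => u0 (hQ u h), fun e => ?_⟩
  by_cases he : e = 0
  · simp [he]
  have n0 : 0 < ‖e‖ := norm_pos_iff.2 he
  have := hm (a := ‖e‖⁻¹ • e) (by simp [norm_smul, inv_mul_cancel₀ n0.ne'])
  simp only [mem_setOf_eq, map_smul, ContinuousLinearMap.smul_apply, smul_eq_mul] at this
  have h2 := mul_le_mul_of_nonneg_right this (sq_nonneg ‖e‖)
  refine h2.trans (le_of_eq ?_)
  field_simp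

variable {n : ℕ}

/-- The quadratic form that separates the two Busemann functions. -/
noncomputable def Nf (h : Met n) (G : Con n) (p : CR.E n × CR.E n) (Q W : E →L[ℝ] CR.E n)
    (e : E) : ℝ := -h p.1 (W e + G p.1 (Q e) p.2) (Q e) / 2

/-- The family is Legendrian and its foot is Lipschitz near `x`. -/
def Leg {h : Met n} (w : E → UT h) (x : E) : Prop := ∃ C L : ℝ, ∀ᶠ p : E × E in 𝓝 (x, x),
  |h (w p.1).1.1 (w p.1).1.2 ((w p.2).1.1 - (w p.1).1.1)| ≤ C * ‖p.2 - p.1‖ ^ 2 ∧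
    ‖(w p.2).1.1 - (w p.1).1.1‖ ≤ L * ‖p.2 - p.1‖

theorem fin0 {A1 A2 A3 B1 B2 B3 B4 a η n L d u v ε : ℝ} (h1 : |-A1 - (B1 + B2 + B3) / 2| ≤ η * n)
    (h3 : |A2 - B2| ≤ η * n) (s3 : |a / 2 * A3 - a / 2 * B4| ≤ |a| * (η * n))
    (s2 : η * d ≤ η * (L ^ 2 * n)) (s4 : η * (2 + |a| + L ^ 2) * n = ε * n) (p0 : 0 ≤ η * n)
    (b1 : -A1 - A2 / 2 + a / 2 * A3 - η * d ≤ u) (b2 : - -A1 - -A2 / 2 + a / 2 * A3 - η * d ≤ v) :
    -u ≤ -(B3 + B1) / 2 - a / 2 * B4 + ε * n ∧ -(B3 + B1) / 2 + a / 2 * B4 - ε * n ≤ v := by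
  have := abs_le.1 h1
  have := abs_le.1 h3
  have := abs_le.1 s3
  constructor <;> linarith

/-- The sandwich with a margin. -/
theorem sand0 {h : Met n} {G : Con n} {Ψ : ℝ → UT h → UT h} {a : ℝ} (hh : Riem h)
    (hG : ChrP h G) (hb : Lb2P h G Ψ a) {w : E → UT h} {Q W : E →L[ℝ] CR.E n} {x : E}
    (hq : HasFDerivAt (fun e => (w e).1.1) Q x) (hv : HasFDerivAt (fun e => (w e).1.2) W x)
    (hl : Leg w x) {ε : ℝ} (hε : 0 < ε) : ∀ᶠ e in 𝓝 (0 : E),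
      -bus h Ψ (w (x + e)) (w x).1.1 ≤
        Nf h G (w x).1 Q W e - a / 2 * h (w x).1.1 (Q e) (Q e) + ε * ‖e‖ ^ 2 ∧
      Nf h G (w x).1 Q W e + a / 2 * h (w x).1.1 (Q e) (Q e) - ε * ‖e‖ ^ 2 ≤
        bus h Ψ (ng (w (x + e))) (w x).1.1 := by
  obtain ⟨C, L, hl⟩ := hl
  let q : E → CR.E n := fun e => (w e).1.1
  let v : E → CR.E n := fun e => (w e).1.2
  have K0 : 0 < 2 + |a| + L ^ 2 := by positivity
  obtain ⟨η, hη, hηd⟩ : ∃ η, 0 < η ∧ η * (2 + |a| + L ^ 2) = ε :=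
    ⟨ε / _, div_pos hε K0, div_mul_cancel₀ _ K0.ne'⟩
  have dh : HasFDerivAt h (fderiv ℝ h (q x)) (q x) :=
    (hh.smooth.differentiable (by norm_num) _).hasFDerivAt
  have hH : HasFDerivAt (fun e => h (q e)) ((fderiv ℝ h (q x)).comp Q) x :=
    HasFDerivAt.comp (g := h) (f := q) x dh hq
  have hr : HasFDerivAt (fun e => h (q e) (v e))
      (((fderiv ℝ h (q x)).comp Q).flip (v x) + (h (q x)).comp W) x := by
    rw [add_comm]
    exact HasFDerivAt.clm_apply (c := fun e => h (q e)) (u := v) hH hv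
  have cG : ContinuousAt (fun e => G (q e)) x := hG.smooth.continuous.continuousAt.comp hq.continuousAt
  have t1 := tay2 (r := fun e => h (q e) (v e)) (q := q) hr hq hl hη
  have t2 := quad (T := fun e => h (q e)) (q := q) hH.continuousAt hq hη
  have t3 := quad (T := fun e => (ContinuousLinearMap.compL ℝ (CR.E n) (CR.E n) ℝ
    (h (q e) (v e))).comp (G (q e))) (q := q)
    (((ContinuousLinearMap.compL ℝ (CR.E n) (CR.E n) ℝ).continuous.continuousAt.comp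
      hr.continuousAt).clm_comp cG) hq hη
  obtain ⟨ρ, ρ0, hρ⟩ := hb (‖q x‖ + 1) η hη
  have t4 : Tendsto (fun e : E => (x + e, x)) (𝓝 0) (𝓝 (x, x)) :=
    Continuous.tendsto' (by fun_prop) _ _ (by simp)
  have t5 : Tendsto (fun e : E => q x - q (x + e)) (𝓝 0) (𝓝 0) := by
    have : Tendsto (fun e : E => x + e) (𝓝 0) (𝓝 x) :=
      Continuous.tendsto' (by fun_prop) _ _ (by simp)
    simpa [q] using (hq.continuousAt.tendsto.comp this).const_sub (q x)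
  have t6 : ∀ᶠ e in 𝓝 (0 : E), C ^ 2 * ‖e‖ ^ 2 < η :=
    (Continuous.tendsto' (f := fun e : E => C ^ 2 * ‖e‖ ^ 2) (by fun_prop) 0 0
      (by simp)).eventually_lt_const hη
  filter_upwards [t1, t2, t3, t4.eventually hl, t6,
    t5.eventually (Metric.closedBall_mem_nhds (0 : CR.E n) (lt_min ρ0 one_pos))]
    with e h1 h2 h3 h4 h6 h5
  rw [dist_zero_right] at h5
  simp only [sub_add_cancel_left, norm_neg] at h4
  simp only [Function.comp_apply, ContinuousLinearMap.add_apply, ContinuousLinearMap.comp_apply,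
    ContinuousLinearMap.flip_apply, ContinuousLinearMap.compL_apply, hG.compat] at h1 h2 h3
  obtain ⟨D, hD⟩ : ∃ D, D = q x - q (x + e) := ⟨_, rfl⟩
  have h41 : |h (q (x + e)) (v (x + e)) D| ≤ C * ‖e‖ ^ 2 := hD ▸ h4.1
  have h42 : ‖D‖ ≤ L * ‖e‖ := hD ▸ h4.2
  rw [← hD] at h2 h3 h5
  have n1 : ‖q (x + e)‖ ≤ ‖q x‖ + 1 := by
    have : q (x + e) = q x - D := by rw [hD]; abel
    rw [this]
    exact (norm_sub_le _ _).trans (by linarith [h5.trans (min_le_right _ _)])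
  have e0 : q (x + e) + D = q x := by rw [hD]; abel
  have b1 := hρ (w (x + e)) D n1 (h5.trans (min_le_left _ _))
  have b2 := hρ (ng (w (x + e))) D n1 (h5.trans (min_le_left _ _))
  change -h (q (x + e)) (v (x + e)) D - h (q (x + e)) (v (x + e)) (G (q (x + e)) D D) / 2 +
    a / 2 * (h (q (x + e)) D D - h (q (x + e)) (v (x + e)) D ^ 2) - η * ‖D‖ ^ 2 ≤
      bus h Ψ (w (x + e)) (q (x + e) + D) at b1
  change -h (q (x + e)) (-v (x + e)) D - h (q (x + e)) (-v (x + e)) (G (q (x + e)) D D) / 2 +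
    a / 2 * (h (q (x + e)) D D - h (q (x + e)) (-v (x + e)) D ^ 2) - η * ‖D‖ ^ 2 ≤
      bus h Ψ (ng (w (x + e))) (q (x + e) + D) at b2
  rw [e0] at b1 b2
  simp only [map_neg, ContinuousLinearMap.neg_apply, neg_sq] at b2
  have e1 : q (x + e) - q x = -D := by rw [hD]; abel
  rw [e1, map_neg] at h1
  have n0 := sq_nonneg ‖e‖
  have s1 : h (q (x + e)) (v (x + e)) D ^ 2 ≤ η * ‖e‖ ^ 2 := by
    have := sq_le_sq' (abs_le.1 h41).1 (abs_le.1 h41).2
    nlinarith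
  have s2 : η * ‖D‖ ^ 2 ≤ η * (L ^ 2 * ‖e‖ ^ 2) := by
    refine mul_le_mul_of_nonneg_left ?_ hη.le
    rw [← mul_pow]
    exact pow_le_pow_left₀ (norm_nonneg _) h42 2
  have s3 : |a / 2 * (h (q (x + e)) D D - h (q (x + e)) (v (x + e)) D ^ 2) -
      a / 2 * h (q x) (Q e) (Q e)| ≤ |a| * (η * ‖e‖ ^ 2) := by
    rw [← mul_sub, abs_mul, abs_div, abs_two]
    have : |h (q (x + e)) D D - h (q (x + e)) (v (x + e)) D ^ 2 - h (q x) (Q e) (Q e)| ≤
        2 * (η * ‖e‖ ^ 2) := by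
      have := abs_le.1 h2
      have := sq_nonneg (h (q (x + e)) (v (x + e)) D)
      rw [abs_le]
      constructor <;> linarith
    nlinarith [abs_nonneg a]
  have s4 : η * (2 + |a| + L ^ 2) * ‖e‖ ^ 2 = ε * ‖e‖ ^ 2 := by rw [hηd]
  have e2 : Nf h G (w x).1 Q W e =
      -(h (q x) (W e) (Q e) + h (q x) (G (q x) (Q e) (v x)) (Q e)) / 2 := by
    simp only [Nf, map_add, ContinuousLinearMap.add_apply]
    rfl
  rw [e2]
  exact fin0 h1 h3 s3 s2 s4 (by positivity) b1 b2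

/-- The strict sandwich at a point where the foot map is an immersion. -/
theorem sand [FiniteDimensional ℝ E] {h : Met n} {G : Con n} {Ψ : ℝ → UT h → UT h} {a : ℝ}
    (hh : Riem h) (hG : ChrP h G) (ha : 0 < a) (hb : Lb2P h G Ψ a) {w : E → UT h}
    {Q W : E →L[ℝ] CR.E n} {x : E} (hq : HasFDerivAt (fun e => (w e).1.1) Q x)
    (hv : HasFDerivAt (fun e => (w e).1.2) W x) (hl : Leg w x) (hQ : ∀ e, Q e = 0 → e = 0) :
    ∀ᶠ e in 𝓝[≠] (0 : E), -bus h Ψ (w (x + e)) (w x).1.1 < Nf h G (w x).1 Q W e ∧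
      Nf h G (w x).1 Q W e < bus h Ψ (ng (w (x + e))) (w x).1.1 := by
  obtain ⟨c, c0, hc⟩ := coer (hh.pos (w x).1.1) hQ
  have hε : 0 < a * c / 4 := by positivity
  filter_upwards [nhdsWithin_le_nhds (sand0 hh hG hb hq hv hl hε), self_mem_nhdsWithin] with e h1 he
  have n0 : 0 < ‖e‖ ^ 2 := pow_pos (norm_pos_iff.2 he) 2
  have := mul_le_mul_of_nonneg_left (hc e) ha.le
  have : 0 < a * c * ‖e‖ ^ 2 := by positivity
  constructor <;> nlinarith [h1.1, h1.2]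

end Pool.Agent.MP_3ee8cb_gt.CZS
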